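import Pool.Agent.V7H10.MZ

/-!
# MP_2000e9_nt: multiple zeta values of one weight with arguments near the values of additive functions

A pattern in one variable is a list of letters `b + u s` with natural numbers `b`, `u`; at a natural number `s` it gives an
index. Let `w_1, ..., w_r` be different admissible patterns with the same weight for every `s`, such that initial segments
of the same weight of their constant parts are equal (`OneWeight`). The multiple zeta values `ζ(w_1(s)), ..., ζ(w_r(s))` are
in the same space `Z_n`.

Let `Φ = f_1 ∘ ⋯ ∘ f_l` be a composition of functions dominated by the largest prime factor, such as the sum of the prime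
factors with multiplicity, the largest prime factor, or the least `j` with `m ∣ j!`, let `G` be a function with steps bounded
below by a positive constant and growth at most `v ^ d`, for example `α v ^ d`, and let `κ < 1`. We show: there is ONE set
`R` of natural numbers with at most `N exp (- (log N) ^ c)` elements up to `N`, for every `c < 1 / (l + 1)` and all large
`N`, such that for ALL such finite families of patterns, all `C` and all large `m` outside `R`: for ALL `s ≥ 1` with
`|s - G(Φ(m))| ≤ Φ(m) ^ κ` the multiple zeta values `ζ(w_1(s)), ..., ζ(w_r(s))` of the same weight satisfy no nontrivial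
linear relation with integer coefficients of absolute value at most `C ^ s`.

A value of an additive function is taken very often, and so the statement does not follow from the small number of the
exceptional arguments (theorem `PatternsOfOneWeight` of this page, helper599: a bounded number in `[N, 2 N]`). The tool is
`Pool.Agent.N375.AV` (helper375), with a diagonal argument (`Pool.Agent.V7H10.Diag`) to get one exceptional set for all
patterns. The order of the arguments is reversed in comparison with the problem.
-/

set_option autoImplicit false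

namespace Pool.Agent.Results.MP_2000e9_nt.AdditiveArgumentsH10

open Pool.Agent.N733.TG (Expanding expanding_pow)
open Pool.Agent.N375.AV (PD comp pd_sopfr pd_largest pd_kempner)
open Pool.Agent.V7H10.Diag (cnt)
open Pool.Agent.V7H10.MZ (Data Bad1 thin1 noRelation1)
open Pool.Agent.Results.MP_2000e9_nt.PatternsOfOneWeight (Letter)
open Pool.Agent.Results.MP_2000e9_nt.ArgumentsNearValues (OneWeight NoRelation)

/-- **Multiple zeta values of one weight near values of additive functions.** Let `f_1, …, f_l` be functions dominated by the
largest prime factor, `Φ = f_1 ∘ ⋯ ∘ f_l`, let `G` have steps `≥ a > 0` and growth at most `v ^ d`, `0 ≤ κ < 1`. There is a set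
`R` of natural numbers with at most `N exp (- (log N) ^ c)` elements up to `N`, for all `0 < c < 1 / (l + 1)` and all large
`N`, such that for all finite families `w_1, …, w_r` of patterns in one variable with `OneWeight`, all real `C` and all large
`m ∉ R`: for ALL `s ≥ 1` with `|s - G (Φ m)| ≤ (Φ m) ^ κ` the multiple zeta values `ζ(w_i(s))` satisfy no nontrivial linear
relation with integer coefficients of absolute value at most `C ^ s`. -/
theorem result :
    (∀ fs : List (ℕ → ℕ), (∀ f ∈ fs, PD f) → ∀ (G : ℕ → ℝ) (d : ℝ), Expanding G d → ∀ κ : ℝ, 0 ≤ κ → κ < 1 →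
      ∃ R : Set ℕ, (∀ c : ℝ, 0 < c → c < (1 : ℝ) / (fs.length + 1) → ∃ N₀ : ℕ, ∀ N : ℕ, N₀ ≤ N →
          (cnt R N : ℝ) ≤ N * Real.exp (-(Real.log N ^ c))) ∧
        ∀ (r : ℕ) (w : Fin r → List (Letter 1)), OneWeight w → ∀ C : ℝ, ∃ m₀ : ℕ, ∀ m : ℕ, m₀ ≤ m → m ∉ R →
          ∀ s : ℕ, 1 ≤ s → |(s : ℝ) - G (comp fs m)| ≤ (comp fs m : ℝ) ^ κ → NoRelation w (C ^ s) (fun _ => s)) ∧
    PD (fun m => m.primeFactorsList.sum) ∧ PD (fun m => m.primeFactors.sup id) ∧
    PD (fun m => sInf {k : ℕ | m ∣ k.factorial}) ∧
    ∀ a b : ℝ, 0 < a → 1 ≤ b → Expanding (fun v => a * (v : ℝ) ^ b) b := by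
  refine ⟨fun fs hfs G d hG κ hκ hκ1 => ?_, pd_sopfr, pd_largest, pd_kempner, fun a b ha hb => expanding_pow ha hb⟩
  obtain ⟨R, hR, h⟩ := Pool.Agent.V7H10.KE.addi (T := fun _ : Data => ℕ) Bad1 (fun _ s => (s : ℝ)) le_rfl thin1 fs hfs
    hG hκ (by rw [mul_zero, zero_add]; exact hκ1)
  refine ⟨R, hR, fun r w hw C => ?_⟩
  obtain ⟨m₀, hm₀⟩ := h (⟨⟨r, w⟩, ⌈|C|⌉₊⟩ : Data)
  exact ⟨m₀, fun m hm hmR s hs hn => noRelation1 hw C s hs (hm₀ m hm hmR s hn)⟩

end Pool.Agent.Results.MP_2000e9_nt.AdditiveArgumentsH10
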