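import Pool.Agent.V7H10.MZ

/-!
# MP_2000e9_nt: multiple zeta values of one weight whose arguments are good Diophantine approximations

A pattern in `k` variables is a list of letters `b + u_1 s_1 + ... + u_k s_k` with natural numbers `b`, `u_j`; at a
tuple `s` of natural numbers it gives an index. Let `w_1, ..., w_r` be different admissible patterns with the same weight at
every tuple, such that initial segments of the same weight of their constant parts are equal (`OneWeight`). The multiple zeta
values `ζ(w_1(s)), ..., ζ(w_r(s))` are in the same space `Z_n`.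

Let `β ∈ ℝ ^ m` and `τ > 0`. We show: there is a set `E` of real `k × m` matrices of Hausdorff dimension at most
`(k - 1) m + (m + k - 1) / (1 + τ)` such that for all matrices `α` outside `E`: for ALL such finite families of patterns, all
`C`, `c`, `κ` and ALL integral vectors `q` of large maximum norm `‖q‖` with `‖q‖ ≤ κ |q_i|` for all `i` and
`‖∑_i q_i α_(i j) - β_j‖ ≤ c ‖q‖ ^ (-τ)` for all `j` (distance to the nearest integer), the multiple zeta values
`ζ(w_i(|q_1|, …, |q_k|))` of the same weight satisfy no nontrivial linear relation with integer coefficients of absolute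
value at most `C ^ (|q_1| + ... + |q_k|)`. For example (`k = 1`) for all vectors `α ∈ ℝ ^ m` outside a set of dimension
`m / (1 + τ)` the denominators `q` of all good simultaneous approximations of `α` of order `τ` are arguments of this kind;
the set of the `α` with infinitely many good approximations of order `τ ≥ 1 / m` has dimension `(m + 1) / (1 + τ)`.

The theorem `PatternsOfOneWeight` of this page (helper599) bounds the number of the exceptional tuples in
`[N, κ N] ^ k` by `K N ^ (k - 1)` for one family of patterns. Here one exceptional set of matrices suffices for all patterns.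
The tool is `Pool.Agent.N671.DA` (helper671). The order of the arguments is reversed in comparison with the problem.
-/

set_option autoImplicit false

namespace Pool.Agent.Results.MP_2000e9_nt.ApproximationArgumentsH10

open Pool.Agent.N671.DA (Near)
open Pool.Agent.Results.MP_2000e9_nt.PatternsOfOneWeight (Letter)
open Pool.Agent.Results.MP_2000e9_nt.ArgumentsNearValues (OneWeight NoRelation)

/-- **Multiple zeta values of one weight at good approximations.** Let `k ≥ 1`, `β ∈ ℝ ^ m`, `τ > 0`. There is a set `E` of
real `k × m` matrices of Hausdorff dimension at most `(k - 1) m + (m + k - 1) / (1 + τ)` such that for all `α ∉ E`, all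
finite families `w_1, …, w_r` of patterns in `k` variables with `OneWeight`, all real `C`, `c` and natural `κ`, for all
integral vectors `q` of large maximum norm with `‖q‖ ≤ κ |q_i|` for all `i` and `‖∑_i q_i α_(i j) - β_j‖ ≤ c ‖q‖ ^ (-τ)` for
all `j` the multiple zeta values `ζ(w_i(|q_1|, …, |q_k|))` satisfy no nontrivial linear relation with integer coefficients of
absolute value at most `C ^ (|q_1| + ... + |q_k|)`. -/
theorem result (k : ℕ) (hk : 1 ≤ k) (m : ℕ) (β : Fin m → ℝ) (τ : ℝ) (hτ : 0 < τ) :
    ∃ E : Set (Fin k × Fin m → ℝ), dimH E ≤ ENNReal.ofReal (((k : ℝ) - 1) * m + (m + ((k : ℝ) - 1)) / (1 + τ)) ∧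
      ∀ α, α ∉ E → ∀ (r : ℕ) (w : Fin r → List (Letter k)), OneWeight w → ∀ (C c : ℝ) (κ : ℕ), ∃ Q : ℝ,
        ∀ q : Fin k → ℤ, Q ≤ ‖q‖ → (∀ i, ‖q‖ ≤ κ * |(q i : ℝ)|) → Near α β q (c * ‖q‖ ^ (-τ)) →
          NoRelation w (C ^ (∑ i, (q i).natAbs)) (fun i => (q i).natAbs) :=
  Pool.Agent.V7H10.MZ.approx hk β hτ

end Pool.Agent.Results.MP_2000e9_nt.ApproximationArgumentsH10
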