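import Pool.Agent.V7H32.MZ.Zeta

/-!
# Zagier's dimension conjecture: gap laws, and one relation at most
-/

set_option autoImplicit false

open Module MvPolynomial Filter Pool.Agent.V7H32.MZ

namespace Pool.Agent.Results.MP_2000e9_nt.OneRelationH32

theorem result (M : Motivic) :
    -- (1) Q1 holds iff infinitely often the dimension of `Z 0 + ⋯ + Z N` is almost maximal
    (Zagier ↔ ∀ ε : ℝ, 0 < ε → ∃ᶠ N in atTop, (1 - ε) * D N ≤ finrank ℚ (ZZ N)) ∧
    -- (2) the same for the first half of Q1 and the dimension of `Z N`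
    (DimensionHalf ↔ ∀ ε : ℝ, 0 < ε → ∃ᶠ N in atTop, (1 - ε) * d N ≤ finrank ℚ (Z N)) ∧
    -- (3) the second half of Q1 holds iff it holds asymptotically
    (iSupIndep Z ↔ Tendsto (fun N => (finrank ℚ (ZZ N) : ℝ) /
      (∑ n ∈ Finset.range (N + 1), finrank ℚ (Z n) : ℕ)) atTop (nhds 1)) ∧
    -- (4) the first half leaves room for one relation only
    (DimensionHalf → Zagier ∨ ∃ (F : MvPolynomial M.ι ℚ) (m : ℕ),
      Prime F ∧ (∀ n, ¬ IsWeightedHomogeneous M.w F n) ∧ HasTopWeight M F m ∧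
      GeneratesRelations M F ∧
      (∀ N, finrank ℚ (ZZ N) + (if m ≤ N then D (N - m) else 0) = D N) ∧
      ∀ T : Set M.ι, AlgebraicIndependent ℚ (fun i : T => M.z i) ↔ ¬ (F.vars : Set M.ι) ⊆ T) ∧
    -- (5) the values of the zeta function at `2, 3, 5, 7, …`
    (DimensionHalf → AlgebraicIndependent ℚ (fun n : A => zeta n) ∨
      ∃ C : Finset ℕ, C.Nonempty ∧ (C : Set ℕ) ⊆ A ∧ ∀ T : Set ℕ, T ⊆ A →
        (AlgebraicIndependent ℚ (fun n : T => zeta n) ↔ ¬ (C : Set ℕ) ⊆ T)) ∧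
    -- (6) they are independent after the removal of one of them
    (DimensionHalf → ∃ k : ℕ, 3 ≤ k ∧ Odd k ∧
      AlgebraicIndependent ℚ (fun n : (A \ {k} : Set ℕ) => zeta n)) :=
  ⟨(main M).1, (main M).2.1, (main M).2.2.1, (main M).2.2.2.1, (main M).2.2.2.2, one_missing M⟩

end Pool.Agent.Results.MP_2000e9_nt.OneRelationH32
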