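import Pool.Agent.V7H10.MZ

/-!
# MP_2000e9_nt: multiple zeta values of one weight with arguments near radial starshaped sequences

A pattern in `k` variables is a list of letters `b + u_1 s_1 + ... + u_k s_k` with natural numbers `b`, `u_j`; at a
tuple `s` of natural numbers it gives an index. Let `w_1, ..., w_r` be different admissible patterns with the same weight at
every tuple, such that initial segments of the same weight of their constant parts are equal (`OneWeight`). The multiple zeta
values `ζ(w_1(s)), ..., ζ(w_r(s))` are in the same space `Z_n`.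

Let `f_0, f_1, …` be a sequence of positive functions on `(a, ∞)` with nondecreasing `f_j(x) / x`, for example `v_j x`,
`x ^ (v_j)` with `v_j ≥ 1`, or the orbit of `x` under a map `g` with nondecreasing `g(x) / x > 1`, and with exponent of
convergence at most `τ` (the series of the `f_j(x) ^ (-t)` converge for `t > τ`; `τ = 0` for the orbits and powers), and let
`θ < 1`. We show: there is a set `E` in `ℝ ^ k` of Hausdorff dimension at most `(k - 1 + τ) / (1 - θ)` such that for all
real vectors `u` with positive coordinates and maximum norm `‖u‖ > a` outside `E`: for ALL such finite families of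
patterns, all `C` and `c` and all large `j`, for ALL tuples `s` of natural numbers with distance at most `c f_j(‖u‖) ^ θ` in
each coordinate from the point `(f_j(‖u‖) / ‖u‖) u` of norm `f_j(‖u‖)` on the ray through `u`, the multiple zeta values
`ζ(w_1(s)), ..., ζ(w_r(s))` of the same weight satisfy no nontrivial linear relation with integer coefficients of absolute
value at most `C ^ (s_1 + ... + s_k)`.

For `k = 1` and the powers or orbits `E` has dimension ZERO. The theorem `PatternsOfOneWeight` of this page (helper599)
bounds the number of the exceptional tuples in `[N, κ N] ^ k` by `K N ^ (k - 1)` for one family of patterns; the points near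
such sequences are much less. Here one exceptional set of real vectors suffices for all patterns. The tool is
`Pool.Agent.R482.ST` (helper482). The order of the arguments is reversed in comparison with the problem.
-/

set_option autoImplicit false

namespace Pool.Agent.Results.MP_2000e9_nt.StarshapedArgumentsH10

open Pool.Agent.R482.ST (Starshaped Conv ex_mul ex_pow ex_orbit)
open Pool.Agent.Results.MP_2000e9_nt.PatternsOfOneWeight (Letter)
open Pool.Agent.Results.MP_2000e9_nt.ArgumentsNearValues (OneWeight NoRelation)

/-- **Multiple zeta values of one weight near radial starshaped sequences.** Let `k ≥ 1`, let `f` be a starshaped sequence on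
`(a, ∞)` with exponent of convergence at most `τ`, `θ < 1`. There is a set `E` in `ℝ ^ k` of Hausdorff dimension at most
`(k - 1 + τ) / (1 - θ)` such that for all `u` with positive coordinates and `‖u‖ > a` outside `E`, for all finite families
`w_1, …, w_r` of patterns in `k` variables with `OneWeight` and all real `C`, `c`, for all large `j` and ALL tuples `s` of
natural numbers with `|s_i - (f_j(‖u‖) / ‖u‖) u_i| ≤ c f_j(‖u‖) ^ θ`, the multiple zeta values `ζ(w_i(s))` satisfy no
nontrivial linear relation with integer coefficients of absolute value at most `C ^ (s_1 + ... + s_k)`. -/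
theorem result :
    (∀ (k : ℕ), 1 ≤ k → ∀ (f : ℕ → ℝ → ℝ) (a τ θ : ℝ), Starshaped a f → 0 ≤ τ → Conv a f τ → θ < 1 →
      ∃ E : Set (Fin k → ℝ), dimH E ≤ ENNReal.ofReal (((k : ℝ) - 1 + τ) / (1 - θ)) ∧
        ∀ u : Fin k → ℝ, a < ‖u‖ → (∀ i, 0 < u i) → u ∉ E → ∀ (r : ℕ) (w : Fin r → List (Letter k)), OneWeight w →
          ∀ C c : ℝ, ∃ j₀ : ℕ, ∀ j : ℕ, j₀ ≤ j → ∀ s : Fin k → ℕ,
            (∀ i, |(s i : ℝ) - f j ‖u‖ / ‖u‖ * u i| ≤ c * (f j ‖u‖) ^ θ) → NoRelation w (C ^ (∑ i, s i)) s) ∧
    -- examples of starshaped sequences: multiples, powers, orbits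
    (∀ (v : ℕ → ℝ) (τ : ℝ), (∀ n, 0 < v n) → (∀ t : ℝ, τ < t → Summable (fun n : ℕ => (v n) ^ (-t))) →
      Starshaped 0 (fun n x => v n * x) ∧ Conv 0 (fun n x => v n * x) τ) ∧
    (∀ v : ℕ → ℝ, (∀ n, 1 ≤ v n) → (∀ t : ℝ, 0 < t → Summable fun n : ℕ => Real.exp (-(t * v n))) →
      Starshaped 1 (fun n x => x ^ (v n)) ∧ Conv 1 (fun n x => x ^ (v n)) 0) ∧
    (∀ (a : ℝ) (g : ℝ → ℝ), 0 ≤ a → (∀ x y : ℝ, a < x → x ≤ y → g x / x ≤ g y / y) → (∀ x : ℝ, a < x → x < g x) →
      Starshaped a (fun n x => g^[n] x) ∧ Conv a (fun n x => g^[n] x) 0) :=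
  ⟨fun _ hk _ _ _ _ hf hτ hv hθ => Pool.Agent.V7H10.MZ.star hk hf hτ hv hθ, ex_mul, ex_pow, ex_orbit⟩

end Pool.Agent.Results.MP_2000e9_nt.StarshapedArgumentsH10
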